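import Pool.Agent.TH289.C.C7

/-!
# Essential equivariant boundary maps and Cannon's conjecture

The case of no peripheral subgroups (`k = 0`) of the relative Cannon conjecture is Cannon's conjecture: a
hyperbolic group whose boundary is a 2-sphere should act properly discontinuously and cocompactly by
isometries on hyperbolic 3-space. The action of a hyperbolic group on its boundary is a convergence action
that is cocompact on triples of distinct points, and by Bowditch these are, up to conjugation, all the
convergence actions on perfect compact metrisable spaces with this property. The theorem says that for a
group with boundary a sphere any representation `ρ` (not assumed to be discrete or faithful) to the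
isometry group of hyperbolic space which admits a continuous equivariant map (not assumed to be injective
or surjective) from the boundary of the group to the boundary of hyperbolic space that is not homotopic to
a constant is already the action which is looked for, and the map is a homeomorphism. The same holds for
representations that preserve a strictly convex domain in a real projective space of any dimension.

The mathematics is in the modules `Pool.Agent.TH289.C` of the repository this team started from, where no
hand-in used them for such a statement.
-/

open Filter Topology Set Pool.Agent.TH289.C

namespace Pool.Agent.Results.MP_04c03c_gt.EssentialBoundaryMap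

/-- **Essential equivariant boundary maps.** Let `G` act on the sphere `S^n`, `n ≥ 1`, by a convergence
action that is cocompact on triples of distinct points.

(1) Let `ρ` be an action of `G` by isometries of hyperbolic space `H^(n+1)` and `f : S^n → ∂H^(n+1)` a
continuous equivariant map. If `f` is not homotopic to a constant, then `G` acts properly discontinuously
and cocompactly on `H^(n+1)` through `ρ`, and `f` is a homeomorphism.

(2) The same for linear actions preserving a strictly convex cone `C` in a finite-dimensional real vector
space, in place of hyperbolic space: the convex projective domain `P(C)` and its boundary. -/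
theorem result (n : ℕ) (hn : 1 ≤ n) {G : Type} [Group G] (α : Action G (Sn n)) (hα : Converges α)
    (hco : TripleCocompact α) :
    (∀ (ρ : LinAction G (Mink n)) (f : C(Sn n, Sn n)), HypSemiconj α ρ f → ¬ f.Nullhomotopic →
      ActsProperly (HypSpace n) (fun g v => ρ.map g v) ∧
      ActsCocompactly (HypSpace n) (fun g v => ρ.map g v) ∧ IsHomeomorph f) ∧
    (∀ (V : Type) [NormedAddCommGroup V] [NormedSpace ℝ V] [FiniteDimensional ℝ V] (C : Set V)
      (τ : V →L[ℝ] ℝ) (ρ : LinAction G V) (f : C(Sn n, Bd C τ)), ProjSemiconj α C τ ρ f →
      ¬ f.Nullhomotopic →
      ActsProperly (Dom C τ) (projAct τ ρ) ∧ ActsCocompactly (Dom C τ) (projAct τ ρ) ∧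
        IsHomeomorph f) := by
  have hE : 2 ≤ Module.finrank ℝ (Euc n) := by
    rw [finrank_euclideanSpace_fin]; omega
  refine ⟨?_, ?_⟩
  · intro ρ f hf hess
    obtain ⟨h1, h2, h3⟩ := hf
    exact main_hyp (E := Euc n) hE (α := α.hom) hα hco (ρ.hom) (fun g => ⟨h1 g, h2 g⟩) f hess h3
  · intro V _ _ _ C τ ρ f hf hess
    obtain ⟨h1, h2, h3⟩ := hf
    exact main (E := Euc n) (ρ := ρ.hom) hE (α := α.hom) hα hco h1 h2 f hess h3

end Pool.Agent.Results.MP_04c03c_gt.EssentialBoundaryMap
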